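import Pool.Agent.MP_0e6a9f_ag.H19.Spec

/-! No self maps of degree `-4` of the non split bimodule `Qa + Qb + Qw`. -/

open MulOpposite

noncomputable section
namespace FMD
open _root_.FMD.DGR _root_.FMD.Bimod

variable {K : Type} [Field K] {C C' : DGR} [Algebra K C.B] [Algebra K C'.B] [C.KL K] [C'.KL K]

section Gen
variable {y : Tw (env K C C')}
  {M : Bimod C C'} [Module K M.H] [IsScalarTower K C'.B M.H] [IsScalarTower K C.Bᵐᵒᵖ M.H]
  {M' : Bimod C C'} [Module K M'.H] [IsScalarTower K C'.B M'.H] [IsScalarTower K C.Bᵐᵒᵖ M'.H]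

lemma h59_bhD_comm {f : M.H →+ M'.H} (hf : IsLin M M' f) (h : ∀ v, M'.d (f v) = f (M.d v))
    (m : y.I → M.H) : bhD y M' (fun i => f (m i)) = fun i => f (bhD y M m i) :=
  (hf.bhD (g := 0) (fun v => by rw [h, Pi.zero_apply, add_zero]) m).trans (add_zero _)

lemma h59_smul_mem (c : K) {n : ℤ} {m : y.I → M.H} (hm : m ∈ bhGr y M n) :
    c • m ∈ bhGr y M n := fun i => smul_mem_cor c (hm i)

omit [Module K M.H] [IsScalarTower K C'.B M.H] [IsScalarTower K C.Bᵐᵒᵖ M.H] in
lemma h59_cast {n k : ℤ} {m : y.I → M.H} (hm : m ∈ bhGr y M n) (h : n = k) :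
    m ∈ bhGr y M k := h ▸ hm

lemma h59_bd_smul (c : K) {n : ℤ} {m : y.I → M.H} (hm : (BH y M).Bd n m) :
    (BH y M).Bd n (c • m) := by
  obtain ⟨w, hw, rfl⟩ := hm
  exact ⟨c • w, h59_smul_mem c hw, bhD_smul y M c w⟩

/-- Composition with the lift of a family. -/
lemma h59_lift_mem {x : Tw (env K C C')} {k n : ℤ} {v : x.I → M.H} (hv : v ∈ bhGr x M k)
    {u : y.I → (Fr x).H} (hu : u ∈ bhGr y (Fr x) n) :
    (fun i => lift x M v (u i)) ∈ bhGr y M (n + k) :=
  (lift_isLin v).bhGr (fun _ _ h => lift_mem hv h) hu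

lemma h59_lift_d {x : Tw (env K C C')} (v : x.I → M.H) (u : y.I → (Fr x).H) :
    bhD y M (fun i => lift x M v (u i)) =
      (fun i => lift x M v (bhD y (Fr x) u i)) + fun i => lift x M (bhD x M v) (u i) :=
  (lift_isLin v).bhD (d_lift v) u

end Gen

section NT
variable {q : Tw (env K C C')} {η : q.I → (Fr q).H} {hη : η ∈ bhGr q (Fr q) 4}
  {hd : bhD q (Fr q) η = 0}

include hd in
lemma h59_eta_d (u : q.I → (Fr q).H) :
    bhD q (Fr q) (fun i => lift q (Fr q) η (u i)) = fun i => lift q (Fr q) η (bhD q (Fr q) u i) :=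
  h59_bhD_comm (lift_isLin η) (fun v => by rw [d_lift, hd, lift_zero, add_zero]) u

/-- Maps from `Fr q` to the three-step bimodule. -/
lemma h59_target {n : ℤ}
    (ha : ∀ α ∈ bhGr q (Fr q) n, bhD q (Fr q) α = 0 →
      (BH q (Fr q)).Bd (n + 4) (fun i => lift q (Fr q) η (α i)) → (BH q (Fr q)).Bd n α)
    (hb : (BH q (Fr q)).AcycAt (n + 3)) (hw : (BH q (Fr q)).AcycAt (n - 4)) :
    (BH q (Fr (nT q η hη hd))).AcycAt n := by
  intro k hk h0
  change bhD q _ k = 0 at h0
  have da : ∀ k : q.I → (Fr (nT q η hη hd)).H, bhD q (Fr q) (fun i => pa q η hη hd (k i)) =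
      fun i => pa q η hη hd (bhD q _ k i) := h59_bhD_comm pa_isLin fun v => (pa_d v).symm
  have dw : ∀ k : q.I → (Fr (nT q η hη hd)).H, bhD q (Fr q) (fun i => pw q η hη hd (k i)) =
      fun i => pw q η hη hd (bhD q _ k i) := h59_bhD_comm pw_isLin fun v => (pw_d v).symm
  have db : ∀ k : q.I → (Fr (nT q η hη hd)).H, bhD q (Fr q) (fun i => pb q η hη hd (k i)) =
      (fun i => pb q η hη hd (bhD q _ k i)) + fun i => lift q (Fr q) η (pa q η hη hd (k i)) :=
    (pb_isLin (hη := hη) (hd := hd)).bhD (g := fun v => lift q (Fr q) η (pa q η hη hd v))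
      fun v => by rw [pb_d, add_assoc, (Fr q).two, add_zero]
  have ma : (fun i => pa q η hη hd (k i)) ∈ bhGr q (Fr q) n :=
    fun i => pa_isLin.mem_cor (hk i) (nT_gr.1 (hk i).1).1
  have mb : (fun i => pb q η hη hd (k i)) ∈ bhGr q (Fr q) (n + 3) :=
    fun i => pb_isLin.mem_cor (hk i) ((Fr q).mem_cast (nT_gr.1 (hk i).1).2.1 (by ring))
  have mw : (fun i => pw q η hη hd (k i)) ∈ bhGr q (Fr q) (n - 4) :=
    fun i => pw_isLin.mem_cor (hk i) ((Fr q).mem_cast (nT_gr.1 (hk i).1).2.2 (by ring))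
  have eb : bhD q (Fr q) (fun i => pb q η hη hd (k i)) =
      fun i => lift q (Fr q) η (pa q η hη hd (k i)) := by
    rw [db, h0]; funext i; simp
  obtain ⟨u, hu, e1⟩ := ha _ ma (by rw [da, h0]; funext i; simp)
    ⟨_, h59_cast mb (by ring), eb⟩
  change bhD q _ u = _ at e1
  obtain ⟨v, hv, e2⟩ := hb ((fun i => pb q η hη hd (k i)) + fun i => lift q (Fr q) η (u i))
    (add_mem mb (h59_cast (h59_lift_mem hη hu) (by ring))) (by
      change bhD q _ _ = 0
      rw [map_add, eb, h59_eta_d (hd := hd), e1]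
      exact (BH q (Fr q)).two _)
  change bhD q _ v = _ at e2
  obtain ⟨t, ht, e3⟩ := hw _ mw (by
    change bhD q _ _ = 0
    rw [dw, h0]; funext i; simp)
  change bhD q _ t = _ at e3
  refine ⟨fun i => ia q η hη hd (u i) + ib q η hη hd (v i) + iw q η hη hd (t i), fun i => ?_, ?_⟩
  · refine add_mem (add_mem (ia_isLin.mem_cor (hu i) (nT_gr.2 ?_))
      (ib_isLin.mem_cor (hv i) (nT_gr.2 ?_))) (iw_isLin.mem_cor (ht i) (nT_gr.2 ?_))
    · exact ⟨(hu i).1, zero_mem _, zero_mem _⟩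
    · exact ⟨zero_mem _, (Fr q).mem_cast (hv i).1 (by ring), zero_mem _⟩
    · exact ⟨zero_mem _, zero_mem _, (Fr q).mem_cast (ht i).1 (by ring)⟩
  · change bhD q _ _ = k
    funext i
    refine nT_ext ?_ ?_ ?_
    · rw [← congrFun e1 i, ← congrFun (da _) i]
      simp
    · have h1 := congrFun (db fun i => ia q η hη hd (u i) + ib q η hη hd (v i) +
        iw q η hη hd (t i)) i
      simp only [map_add, pb_ia, pb_ib, pb_iw, pa_ia, pa_ib, pa_iw, zero_add, add_zero,
        Pi.add_apply] at h1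
      rw [show (fun i => v i) = v from rfl, e2, Pi.add_apply] at h1
      exact (add_right_cancel h1).symm
    · rw [← congrFun e3 i, ← congrFun (dw _) i]
      simp

variable (M : Bimod C C') [Module K M.H] [IsScalarTower K C'.B M.H] [IsScalarTower K C.Bᵐᵒᵖ M.H]

lemma h59_d_b (m : (nT q η hη hd).I → M.H) (i : q.I) :
    bhD (nT q η hη hd) M m (Sum.inl (Sum.inl i)) =
      bhD q M (fun j => m (Sum.inl (Sum.inl j))) i := by
  rw [Fr.bhD_ext_inl, Fr.bhD_ext_inl (hf := zero_mem _) (hd := map_zero _)]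
  rfl

lemma h59_d_w (m : (nT q η hη hd).I → M.H) (i : q.I) :
    bhD (nT q η hη hd) M m (Sum.inl (Sum.inr i)) =
      bhD q M (fun j => m (Sum.inl (Sum.inr j))) i := by
  rw [Fr.bhD_ext_inl, Fr.bhD_ext_inr (hf := zero_mem _) (hd := map_zero _)]
  simp only [Matrix.zero_apply, map_zero, LinearMap.zero_apply, Finset.sum_const_zero, add_zero]
  rfl

lemma h59_d_a (m : (nT q η hη hd).I → M.H) (i : q.I) :
    bhD (nT q η hη hd) M m (Sum.inr i) =
      bhD q M (fun j => m (Sum.inr j)) i + lift q M (fun j => m (Sum.inl (Sum.inl j))) (η i) := by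
  rw [Fr.bhD_ext_inr, Fintype.sum_sum_type]
  simp only [Matrix.fromCols_apply_inr, Matrix.zero_apply, map_zero, LinearMap.zero_apply,
    Finset.sum_const_zero, add_zero, Matrix.fromCols_apply_inl]
  rfl

/-- Maps out of the three-step bimodule. -/
lemma h59_source {n : ℤ} (ha : (BH q M).AcycAt n) (hb : (BH q M).AcycAt (n - 3))
    (hw : (BH q M).AcycAt (n + 4)) : (BH (nT q η hη hd) M).AcycAt n := by
  intro m hm h0
  change bhD _ _ m = 0 at h0
  obtain ⟨vb, hvb, eb⟩ := hb (fun j => m (Sum.inl (Sum.inl j)))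
    (fun j => cor_cast (hm (Sum.inl (Sum.inl j))) (by dsimp; ring))
    (funext fun i => (h59_d_b (q := q) (hη := hη) (hd := hd) M m i).symm.trans (congrFun h0 _))
  obtain ⟨vw, hvw, ew⟩ := hw (fun j => m (Sum.inl (Sum.inr j)))
    (fun j => cor_cast (hm (Sum.inl (Sum.inr j))) (by dsimp; ring))
    (funext fun i => (h59_d_w (q := q) (hη := hη) (hd := hd) M m i).symm.trans (congrFun h0 _))
  change bhD q M vb = _ at eb
  change bhD q M vw = _ at ew
  obtain ⟨va, hva, ea⟩ := ha ((fun j => m (Sum.inr j)) + fun i => lift q M vb (η i))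
    (add_mem (fun j => hm (Sum.inr j)) (h59_cast (h59_lift_mem hvb hη) (by ring))) (by
      change bhD q M _ = 0
      rw [map_add, h59_lift_d, hd, eb]
      funext i
      have := congrFun h0 (Sum.inr i)
      rw [h59_d_a] at this
      simpa using this)
  change bhD q M va = _ at ea
  refine ⟨Sum.elim (Sum.elim vb vw) va, ?_, ?_⟩
  · rintro ((j | j) | j)
    exacts [cor_cast (hvb j) (by dsimp; ring), cor_cast (hvw j) (by dsimp; ring), hva j]
  · change bhD _ _ _ = m
    funext i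
    rcases i with (i | i) | i
    · exact (h59_d_b (q := q) (hη := hη) (hd := hd) M _ i).trans (congrFun eb i)
    · exact (h59_d_w (q := q) (hη := hη) (hd := hd) M _ i).trans (congrFun ew i)
    · refine (h59_d_a (q := q) (hη := hη) (hd := hd) M _ i).trans ?_
      change bhD q M va i + lift q M vb (η i) = _
      rw [ea, Pi.add_apply, add_assoc, M.two, add_zero]

end NT

theorem hh4 : Hh4Stmt := by
  intro K _ A _ _ hA R hneg h0 h3 η hη hd hb
  have Q := R.aug_isHom.bh_qis R.qis R.q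
  have neg : ∀ n : ℤ, n < 0 → (BH R.q (Fr R.q)).AcycAt n := fun n hn =>
    Q.acyc_left fun z hz _ => by
      have : z = 0 := funext fun i => hA.zero (hz i).1 (by have := hneg i; omega)
      exact this ▸ Cx.Bd.zero n
  refine h59_source _ (h59_target (fun α hα h _ => neg _ (by norm_num) α hα h)
      (neg _ (by norm_num)) (neg _ (by norm_num)))
    (h59_target (fun α hα h _ => neg _ (by norm_num) α hα h)
      (neg _ (by norm_num)) (neg _ (by norm_num))) ?_
  rw [show (-4 : ℤ) + 4 = 0 by norm_num]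
  refine h59_target (fun α hα h hbd => ?_) (Q.acyc_left (by simpa using h3)) (neg _ (by norm_num))
  obtain ⟨c, hc⟩ := h0 _ (Q.mem hα) (Q.toIsMap.cyc hα h)
  have mg : c • Fr.gen R.q ∈ bhGr R.q (Fr R.q) 0 := h59_smul_mem c gen_bhGr
  have b1 : (BH R.q (Fr R.q)).Bd 0 (α + c • Fr.gen R.q) := by
    refine Q.inj 0 _ (add_mem hα mg) ?_ ?_
    · change bhD _ _ _ = 0
      rw [map_add, h, bhD_smul, bhD_gen, smul_zero, add_zero]
    · have : R.aug.compLeft R.q.I (α + c • Fr.gen R.q) = 0 := by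
        rw [map_add, hc]
        funext i
        change c • R.a i + R.aug (c • Fr.gen R.q i) = 0
        rw [R.aug_isHom.isLin.smul, lift_gen R.a_mem, A.two]
      exact this ▸ Cx.Bd.zero 0
  have b2 : (BH R.q (Fr R.q)).Bd (0 + 4) (c • η) := by
    obtain ⟨u, hu, e⟩ := b1
    change bhD _ _ u = _ at e
    have b3 : (BH R.q (Fr R.q)).Bd (0 + 4) fun i => lift R.q (Fr R.q) η (bhD _ _ u i) :=
      ⟨_, h59_cast (h59_lift_mem hη hu) (by ring), h59_eta_d (hd := hd) u⟩
    have b4 := hbd.add b3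
    have e' : ((fun i => lift R.q (Fr R.q) η (α i)) +
        fun i => lift R.q (Fr R.q) η (bhD _ _ u i)) = c • η := by
      funext i
      rw [e, Pi.add_apply, Pi.add_apply, map_add, ← add_assoc, (Fr R.q).two, zero_add,
        Pi.smul_apply, Pi.smul_apply, (lift_isLin η).smul, lift_gen hη]
    exact e' ▸ b4
  by_cases hc0 : c = 0
  · simpa [hc0] using b1
  · refine absurd ?_ hb
    have b5 := h59_bd_smul c⁻¹ b2
    rw [smul_smul, inv_mul_cancel₀ hc0, one_smul, zero_add] at b5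
    exact Q.toIsMap.bd b5

end FMD
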